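import Pool.Agent.Lib.MP_70c3c6_co.EQ.PRD
import Pool.Agent.Lib.MP_70c3c6_co.EQ.SLP
import Pool.Agent.Lib.MP_70c3c6_co.EQ.CNC
import Pool.Agent.Lib.MP_70c3c6_co.EQ.HYP
import Pool.Agent.Lib.MP_70c3c6_co.EQ.PAR
import Pool.Agent.Lib.MP_70c3c6_co.EQ.ANA
import Pool.Agent.Lib.MP_70c3c6_co.EQ.CNT
import Pool.Agent.Lib.MP_70c3c6_co.EQ.CRD
import Pool.Agent.Lib.MP_70c3c6_co.EQ.FWD
import Pool.Agent.Lib.MP_70c3c6_co.EQ.BCK

/-!
# MP_70c3c6_co: the complex supersolvable line arrangements with exactly s/2 double points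

A line is given by the coefficient vector `a` of its equation, `p` lies on it iff `a.p = 0`.  The
filter counts the ordered pairs of lines that meet in a double point, that is `2 t_2`.
-/

set_option autoImplicit false
open Classical

namespace Pool.Agent.Lib.MP_70c3c6_co.Old.EqualityRegular

/-- A supersolvable arrangement `A` of `s` complex projective lines, not a pencil, has
`t_2 = s/2` (the number `2 t_2` of ordered pairs of lines meeting in a double point equals `s`)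
iff `s = 2n` for some `n` at least 3 and a linear change of coordinates takes its lines to the lines
`z x + y / z + t = 0` and `x - z y = 0`, `z ^ n = 1`, that is the `n` sides and the `n`
symmetry axes of a regular `n`-gon. -/
theorem result :
    ∀ A : Finset (Fin 3 → ℂ),
      (∀ a ∈ A, a ≠ 0) →
      (∀ a ∈ A, ∀ b ∈ A, a ≠ b → LinearIndependent ℂ ![a, b]) →
      (∃ a ∈ A, ∃ b ∈ A, ∃ c ∈ A, LinearIndependent ℂ ![a, b, c]) →
      (∃ p : Fin 3 → ℂ, p ≠ 0 ∧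
        (∃ a ∈ A, ∃ b ∈ A, a ≠ b ∧ dotProduct a p = 0 ∧ dotProduct b p = 0) ∧
        ∀ a ∈ A, ∀ b ∈ A, a ≠ b → ¬ (dotProduct a p = 0 ∧ dotProduct b p = 0) →
          ∃ c ∈ A, dotProduct c p = 0 ∧ ¬ LinearIndependent ℂ ![a, b, c]) →
      (((A ×ˢ A).filter (fun x => x.1 ≠ x.2 ∧
        ∀ c ∈ A, c ≠ x.1 → c ≠ x.2 → LinearIndependent ℂ ![x.1, x.2, c])).card = A.card ↔
      ∃ n : ℕ, 3 ≤ n ∧ A.card = 2 * n ∧
        ∃ M : (Fin 3 → ℂ) ≃ₗ[ℂ] (Fin 3 → ℂ), ∀ a ∈ A, ∃ ζ : ℂ, ζ ^ n = 1 ∧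
          ∃ c : ℂ, c ≠ 0 ∧ (M a = c • ![ζ, ζ⁻¹, 1] ∨ M a = c • ![1, -ζ, 0])) := by
  intro A h0 h2 h3 ⟨p, hp, hp2, hm⟩
  have hA : Lib.MP_70c3c6_co.EQ.Arr A := ⟨h0, h2, h3⟩
  have hM : Lib.MP_70c3c6_co.EQ.Mod A p := ⟨hp, hp2, hm⟩
  constructor
  · intro h
    exact Lib.MP_70c3c6_co.EQ.specFWD Lib.MP_70c3c6_co.EQ.specCNT Lib.MP_70c3c6_co.EQ.specCRD
      (Lib.MP_70c3c6_co.EQ.specANA Lib.MP_70c3c6_co.EQ.specPRD
        (Lib.MP_70c3c6_co.EQ.specSLP Lib.MP_70c3c6_co.EQ.specPRD) Lib.MP_70c3c6_co.EQ.specCON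
        (Lib.MP_70c3c6_co.EQ.specHYP Lib.MP_70c3c6_co.EQ.specPRD)
        (Lib.MP_70c3c6_co.EQ.specPAR Lib.MP_70c3c6_co.EQ.specPRD)) A p hA hM h
  · intro h
    exact le_antisymm (Lib.MP_70c3c6_co.EQ.specBCK A hA h) (MPss.main A h0 h2 h3 p hp hp2 hm)

end Pool.Agent.Lib.MP_70c3c6_co.Old.EqualityRegular
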